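import Pool.Agent.Helper98.TW.Basic

/-!
Characters of the torus and towers (MP_7a8f48_an): small lemmas.
-/

open MeasureTheory Filter Topology Finset
open scoped ComplexConjugate

namespace Pool.Agent.Helper46.TWR

open Pool.Agent.Helper16.AZ (T mm)
open Pool.Agent.Helper98.TW
open UnitAddTorus (mFourier)

variable {N : ℕ} {lev : Fin N → ℕ} {f : Fin N → T N → U}

theorem ex_prod (a : Fin N → ℤ) (x : T N) : ex a x = ∏ i, fourier (a i) (x i) := rfl

theorem ex_circ (a : Fin N → ℤ) (x : T N) :
    ex a x = (AddCircle.toCircle (∑ i, a i • x i) : ℂ) := by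
  rw [ex_prod]
  have : ∀ s : Finset (Fin N), ∏ i ∈ s, fourier (a i) (x i) =
      (AddCircle.toCircle (∑ i ∈ s, a i • x i) : ℂ) := by
    classical
    intro s
    induction s using Finset.induction_on with
    | empty => simp
    | insert i s hi ih =>
      rw [Finset.prod_insert hi, Finset.sum_insert hi, AddCircle.toCircle_add, ih,
        fourier_apply, Circle.coe_mul]
  exact this _

theorem ex_norm (a : Fin N → ℤ) (x : T N) : ‖ex a x‖ = 1 := by
  rw [ex_circ, Circle.norm_coe]

theorem ex_cont (a : Fin N → ℤ) : Continuous (ex a) := (mFourier a).continuous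

theorem ex_meas (a : Fin N → ℤ) : Measurable (ex a) := (ex_cont a).measurable

theorem ex_uf (a : Fin N → ℤ) : UF (mm N) (ex a) :=
  ⟨ex_meas a, Eventually.of_forall (ex_norm a)⟩

theorem ex_zero (x : T N) : ex 0 x = 1 := by simp [ex_circ]

theorem ex_add (a b : Fin N → ℤ) (x : T N) : ex (a + b) x = ex a x * ex b x := by
  rw [ex_circ, ex_circ, ex_circ, ← Circle.coe_mul, ← AddCircle.toCircle_add,
    ← Finset.sum_add_distrib]
  simp only [Pi.add_apply, add_smul]

theorem ex_neg (a : Fin N → ℤ) (x : T N) : ex (-a) x = conj (ex a x) := by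
  unfold ex
  exact UnitAddTorus.mFourier_neg

theorem ex_sub (a b : Fin N → ℤ) (x : T N) : ex (a - b) x = ex a x * conj (ex b x) := by
  rw [sub_eq_add_neg, ex_add, ex_neg]

theorem ex_addx (a : Fin N → ℤ) (x y : T N) : ex a (x + y) = ex a x * ex a y := by
  rw [ex_circ, ex_circ, ex_circ, ← Circle.coe_mul, ← AddCircle.toCircle_add,
    ← Finset.sum_add_distrib]
  simp only [Pi.add_apply, smul_add]

theorem ex_mul_conj (a : Fin N → ℤ) (x : T N) : ex a x * conj (ex a x) = 1 := by
  rw [Complex.mul_conj, Complex.normSq_eq_norm_sq, ex_norm]; simp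

theorem ex_conj_mul (a : Fin N → ℤ) (x : T N) : conj (ex a x) * ex a x = 1 := by
  rw [mul_comm, ex_mul_conj]

/-- the cocycle `a · f` -/
noncomputable def af (a : Fin N → ℤ) (f : Fin N → T N → U) (x : T N) : U := ∑ i, a i • f i x

theorem ex_SS (a : Fin N → ℤ) (f : Fin N → T N → U) (x : T N) :
    ex a (SS f x) = ex a x * (AddCircle.toCircle (af a f x) : ℂ) := by
  have : SS f x = x + fun i => f i x := rfl
  rw [this, ex_addx, ex_circ a (fun i => f i x)]
  rfl

theorem tr_tr (l : ℕ) (x : T N) : tr lev l (tr lev l x) = tr lev l x := by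
  funext i
  simp only [tr]
  split <;> rfl

theorem tr_tr' {l l' : ℕ} (h : l ≤ l') (x : T N) : tr lev l (tr lev l' x) = tr lev l x := by
  funext i
  simp only [tr]
  by_cases h1 : lev i < l
  · simp [h1, h1.trans_le h]
  · simp [h1]

theorem tr_meas (l : ℕ) : Measurable (tr lev l : T N → T N) := by
  refine measurable_pi_lambda _ fun i => ?_
  by_cases h : lev i < l
  · simpa [tr, h] using measurable_pi_apply i
  · simpa [tr, h] using measurable_const

/-- functions which are measurable for `AL` -/
theorem am_AL {l : ℕ} {F : T N → ℂ} : AM (mm N) (AL lev l) F ↔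
    ∃ G : T N → ℂ, Measurable G ∧ F =ᵐ[mm N] fun x => G (tr lev l x) := by
  rw [am_iff]
  constructor
  · rintro ⟨g, hg, h⟩
    obtain ⟨G, hG, rfl⟩ := hg.exists_eq_measurable_comp
    exact ⟨G, hG, h⟩
  · rintro ⟨G, hG, h⟩
    exact ⟨fun x => G (tr lev l x), hG.comp (comap_measurable _), h⟩

/-- for towers the cocycles of level `l` are measurable for the levels `< l` -/
theorem af_dep (h : Tow lev f) {l : ℕ} {a : Fin N → ℤ} (ha : la lev l a) (x : T N) :
    af a f (tr lev l x) = af a f x := by
  unfold af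
  refine Finset.sum_congr rfl fun i _ => ?_
  by_cases hi : a i = 0
  · simp [hi]
  · have := h.dep i x
    rw [ha i hi] at this
    rw [this]

theorem af_meas (h : Tow lev f) (a : Fin N → ℤ) : Measurable (af a f) := by
  unfold af
  exact Finset.measurable_sum _ fun i _ => (h.meas i).const_smul (a i)

theorem am_af (h : Tow lev f) {l : ℕ} {a : Fin N → ℤ} (ha : la lev l a) :
    AM (mm N) (AL lev l) (fun x => (AddCircle.toCircle (af a f x) : ℂ)) := by
  rw [am_AL]
  refine ⟨fun x => (AddCircle.toCircle (af a f x) : ℂ), ?_, Eventually.of_forall fun x => ?_⟩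
  · exact (continuous_subtype_val.comp AddCircle.continuous_toCircle).measurable.comp (af_meas h a)
  · simp only [af_dep h ha]

end Pool.Agent.Helper46.TWR
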