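import Pool.Agent.Helper46.TWR.ERP

/-!
Row EIG of the sheet TW (MP_7a8f48_an).
-/

open MeasureTheory Filter Topology Finset
open scoped ComplexConjugate

namespace Pool.Agent.Helper46.TWR

open Pool.Agent.Helper16.AZ (T mm)
open Pool.Agent.Helper98.TW

variable {N : ℕ} {lev : Fin N → ℕ} {f f' : Fin N → T N → U}

/-- pull-out for complex functions -/
theorem pullC {𝒜 : SA (T N)} {g h : T N → ℂ} (hg : AM (mm N) 𝒜 g)
    (hgh : Integrable (fun x => g x * h x) (mm N)) (hh : Integrable h (mm N)) :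
    (mm N)[fun x => g x * h x|𝒜] =ᵐ[mm N] fun x => g x * ((mm N)[h|𝒜]) x :=
  condExp_bilin_of_aestronglyMeasurable_left (ContinuousLinearMap.mul ℝ ℂ) hg hgh hh

theorem am_ce {𝒜 : SA (T N)} {g : T N → ℂ} : AM (mm N) 𝒜 ((mm N)[g|𝒜]) :=
  stronglyMeasurable_condExp.aestronglyMeasurable

theorem int_ce {𝒜 : SA (T N)} (h : Lm 𝒜) (g : T N → ℂ) :
    ∫ x, ((mm N)[g|𝒜]) x ∂(mm N) = ∫ x, g x ∂(mm N) := by
  have hle : @LE.le (MeasurableSpace (T N)) _ 𝒜 inferInstance := h
  have : IsFiniteMeasure ((mm N).trim hle) := isFiniteMeasure_trim hle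
  have : SigmaFinite ((mm N).trim hle) := IsFiniteMeasure.toSigmaFinite _
  exact integral_condExp hle

theorem ce_self {𝒜 : SA (T N)} (h : Lm 𝒜) (g : T N → ℂ) :
    (mm N)[(mm N)[g|𝒜]|𝒜] = (mm N)[g|𝒜] := by
  have hle : @LE.le (MeasurableSpace (T N)) _ 𝒜 inferInstance := h
  have : IsFiniteMeasure ((mm N).trim hle) := isFiniteMeasure_trim hle
  have : SigmaFinite ((mm N).trim hle) := IsFiniteMeasure.toSigmaFinite _
  exact condExp_of_stronglyMeasurable hle stronglyMeasurable_condExp integrable_condExp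

theorem int_mul_ex {F : T N → ℂ} (hF : Integrable F (mm N)) (a : Fin N → ℤ) :
    Integrable (fun x => F x * conj (ex a x)) (mm N) := by
  refine Integrable.mono hF (hF.1.mul
    (Complex.continuous_conj.measurable.comp (ex_meas a)).aestronglyMeasurable)
    (Eventually.of_forall fun x => ?_)
  rw [norm_mul, RCLike.norm_conj, ex_norm, mul_one]

theorem ev_norm (a : Fin N → ℤ) : ‖ev f a‖ = 1 := by
  unfold ev
  rw [Circle.norm_coe]

/-- eigenvalues of nonzero functions have modulus one -/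
theorem ev_mod (hmp : MeasurePreserving (SS f) (mm N) (mm N)) {F : T N → ℂ} {c : ℂ}
    (hF : MemLp F 2 (mm N)) (hc : ∀ᵐ x ∂(mm N), F (SS f x) = c * F x) :
    F =ᵐ[mm N] 0 ∨ ‖c‖ = 1 := by
  have h1 : ∫ x, ‖F (SS f x)‖ ^ 2 ∂(mm N) = ∫ x, ‖F x‖ ^ 2 ∂(mm N) := by
    have h2 := integral_map (μ := mm N) (φ := SS f) hmp.measurable.aemeasurable
      (f := fun x => ‖F x‖ ^ 2) (by rw [hmp.map_eq]; exact (hF.1.norm.pow 2))
    rw [hmp.map_eq] at h2
    exact h2.symm
  have h2 : ∫ x, ‖F (SS f x)‖ ^ 2 ∂(mm N) = ‖c‖ ^ 2 * ∫ x, ‖F x‖ ^ 2 ∂(mm N) := by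
    rw [← integral_const_mul]
    refine integral_congr_ae ?_
    filter_upwards [hc] with x hx
    rw [hx, norm_mul, mul_pow]
  rw [h1] at h2
  have h3 : (1 - ‖c‖ ^ 2) * ∫ x, ‖F x‖ ^ 2 ∂(mm N) = 0 := by linear_combination h2
  rcases mul_eq_zero.1 h3 with h4 | h4
  · right
    have h5 : (1 - ‖c‖) * (1 + ‖c‖) = 0 := by linear_combination h4
    rcases mul_eq_zero.1 h5 with h6 | h6
    · linarith
    · have := norm_nonneg c
      linarith
  · left
    have h5 : Integrable (fun x => ‖F x‖ ^ 2) (mm N) := hF.integrable_norm_pow (by norm_num)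
    have h6 := (integral_eq_zero_iff_of_nonneg (fun x => sq_nonneg _) h5).1 h4
    filter_upwards [h6] with x hx
    have : ‖F x‖ ^ 2 = 0 := hx
    exact norm_eq_zero.1 (pow_eq_zero_iff (by norm_num) |>.1 this)

/-- the statement for the functions of the levels `< l` -/
def PL (lev : Fin N → ℕ) (f : Fin N → T N → U) (l : ℕ) : Prop :=
  ∀ (F : T N → ℂ) (c : ℂ), MemLp F 2 (mm N) → AM (mm N) (AL lev l) F →
    (∀ᵐ x ∂(mm N), F (SS f x) = c * F x) →
    ∃ (k : Fin N → ℤ) (b : ℂ), la lev 0 k ∧ F =ᵐ[mm N] fun x => b * ex k x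

theorem pl_zero (hA : ST_ALS) : PL lev f 0 := by
  intro F c hF hm hc
  rw [(hA N lev).1] at hm
  obtain ⟨b, hb⟩ := am_bo.1 hm
  refine ⟨0, b, la_zero, ?_⟩
  filter_upwards [hb] with x hx
  rw [hx, ex_zero, mul_one]

theorem orth (hA : ST_ALS) (hZ : ST_CHZ) {a b : Fin N → ℤ} (ha : la lev 0 a) (hb : la lev 0 b)
    (hab : a ≠ b) : ∫ x, ex a x * conj (ex b x) ∂(mm N) = 0 := by
  have h1 := hZ N lev 0 (a - b) (sub_ne_zero.2 hab) (la_sub ha hb) (fun _ => 1)
    (integrable_const _) (am_const 1)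
  have h2 : ∫ x, ((mm N)[fun x => ex (a - b) x * 1|AL lev 0]) x ∂(mm N) =
      ∫ x, ex (a - b) x * 1 ∂(mm N) := int_ce ((hA N lev).2.2.1 0) _
  have h3 : ∫ x, ((mm N)[fun x => ex (a - b) x * 1|AL lev 0]) x ∂(mm N) = 0 := by
    rw [integral_congr_ae h1]
    simp
  rw [h3] at h2
  rw [h2]
  refine integral_congr_ae (Eventually.of_forall fun x => ?_)
  simp only [mul_one, ex_sub]

theorem pl_one (hA : ST_ALS) (hZ : ST_CHZ) (hD : ST_DNS) (ht : Tow lev f)
    (hmp : MeasurePreserving (SS f) (mm N) (mm N)) (hr : MR lev f) : PL lev f 1 := by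
  intro F c hF hm hc
  have hFi : Integrable F (mm N) := hF.integrable (by norm_num)
  have hm' : AM (mm N) (jo (AL lev 0) (sg (CH lev 0))) F := by
    rw [← (hA N lev).2.1 0]
    exact hm
  have key : ∀ a : Fin N → ℤ, la lev 0 a → (∫ x, F x * conj (ex a x) ∂(mm N)) ≠ 0 →
      c = ev f a := by
    intro a ha h0
    have h1 : ∫ x, F (SS f x) * conj (ex a (SS f x)) ∂(mm N) =
        ∫ x, F x * conj (ex a x) ∂(mm N) := by
      have h2 := integral_map (μ := mm N) (φ := SS f) hmp.measurable.aemeasurable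
        (f := fun x => F x * conj (ex a x)) (by rw [hmp.map_eq]; exact (int_mul_ex hFi a).1)
      rw [hmp.map_eq] at h2
      exact h2.symm
    have h2 : ∫ x, F (SS f x) * conj (ex a (SS f x)) ∂(mm N) =
        c * conj (ev f a) * ∫ x, F x * conj (ex a x) ∂(mm N) := by
      rw [← integral_const_mul]
      refine integral_congr_ae ?_
      filter_upwards [hc] with x hx
      rw [hx, ex_ev ht ha, map_mul]
      ring
    rw [h1] at h2
    have h3 : (c * conj (ev f a) - 1) * ∫ x, F x * conj (ex a x) ∂(mm N) = 0 := by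
      linear_combination -h2
    have h4 : c * conj (ev f a) = 1 := sub_eq_zero.1 ((mul_eq_zero.1 h3).resolve_right h0)
    have h5 : ev f a * conj (ev f a) = 1 := by
      rw [Complex.mul_conj, Complex.normSq_eq_norm_sq, ev_norm]; simp
    have h6 : conj (ev f a) ≠ 0 := by
      intro h
      rw [h, mul_zero] at h5
      exact one_ne_zero h5.symm
    exact mul_right_cancel₀ h6 (h4.trans h5.symm)
  have dns : ∀ G : T N → ℂ, Integrable G (mm N) →
      AM (mm N) (jo (AL lev 0) (sg (CH lev 0))) G →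
      (∀ a, la lev 0 a → ∫ x, G x * conj (ex a x) ∂(mm N) = 0) → G =ᵐ[mm N] 0 := by
    intro G hG hGm h
    refine hD (T N) (mm N) (AL lev 0) (CH lev 0) G ((hA N lev).2.2.1 0) ((hA N lev).2.2.2.2.2.1 0)
      hG hGm ?_
    rintro φ ⟨a, ha, rfl⟩
    rw [(hA N lev).1]
    have h1 : (mm N)[fun x => G x * conj (ex a x)|bo] =
        fun _ => ∫ x, G x * conj (ex a x) ∂(mm N) := condExp_bot _
    rw [h1, h a ha]
    exact EventuallyEq.rfl
  by_cases hex : ∃ a, la lev 0 a ∧ (∫ x, F x * conj (ex a x) ∂(mm N)) ≠ 0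
  · obtain ⟨a, ha, h0⟩ := hex
    set b := ∫ x, F x * conj (ex a x) ∂(mm N) with hb
    refine ⟨a, b, ha, ?_⟩
    have hexi : Integrable (fun x => b * ex a x) (mm N) :=
      ((ex_memLp a).integrable (by norm_num)).const_mul b
    have h1 := dns (fun x => F x - b * ex a x) (hFi.sub hexi)
      (am_sub hm' (am_mul (am_const b) (am_jo_right (am_sg ⟨a, ha, rfl⟩)))) (fun a' ha' => by
        have h2 : ∫ x, (F x - b * ex a x) * conj (ex a' x) ∂(mm N) =
            ∫ x, F x * conj (ex a' x) ∂(mm N) - b * ∫ x, ex a x * conj (ex a' x) ∂(mm N) := by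
          rw [← integral_const_mul, ← integral_sub (int_mul_ex hFi a')
            ((int_mul_ex ((ex_memLp a).integrable (by norm_num)) a').const_mul b)]
          refine integral_congr_ae (Eventually.of_forall fun x => ?_)
          simp only
          ring
        rw [h2]
        by_cases haa : a = a'
        · subst haa
          simp only [ex_mul_conj]
          simp [hb]
        · rw [orth hA hZ ha ha' haa, mul_zero, sub_zero]
          by_contra h3
          exact haa (ev_inj hr ha ha' ((key a ha h0).symm.trans (key a' ha' h3))))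
    filter_upwards [h1] with x hx
    exact sub_eq_zero.1 hx
  · push Not at hex
    refine ⟨0, 0, la_zero, ?_⟩
    have h1 := dns F hFi hm' hex
    filter_upwards [h1] with x hx
    rw [hx, zero_mul]
    rfl

theorem pl_succ (hI : ST_IAL) (hA : ST_ALS) (hZ : ST_CHZ) (hC : ST_CEC) (hD : ST_DNS)
    (hti : TI lev f f') (hsys : Sys (mm N) (SS f) (SS f')) (hnu : NU lev f 1) (l : ℕ)
    (ih : PL lev f (l + 1)) : PL lev f (l + 2) := by
  intro F c hF hm hc
  have hFi : Integrable F (mm N) := hF.integrable (by norm_num)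
  have hmp := hsys.mp
  have hm' : AM (mm N) (jo (AL lev (l + 1)) (sg (CH lev (l + 1)))) F := by
    rw [← (hA N lev).2.1 (l + 1)]
    exact hm
  have hIA : IA (mm N) (AL lev (l + 1)) (SS f) (SS f') := by
    have := hI N lev f f' hti (l + 1) 1
    simpa using this
  have hlm := (hA N lev).2.2.1 (l + 1)
  rcases ev_mod hmp hF hc with h0 | hc1
  · refine ⟨0, 0, la_zero, ?_⟩
    filter_upwards [h0] with x hx
    rw [hx, zero_mul]
    rfl
  have key : ∀ a : Fin N → ℤ, a ≠ 0 → la lev (l + 1) a →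
      (mm N)[fun x => F x * conj (ex a x)|AL lev (l + 1)] =ᵐ[mm N] 0 := by
    intro a ha0 ha
    set H : T N → ℂ := fun x => F x * conj (ex a x) with hH
    set G : T N → ℂ := (mm N)[H|AL lev (l + 1)] with hG
    have hHi : Integrable H (mm N) := int_mul_ex hFi a
    have hH2 : MemLp H 2 (mm N) := by
      refine MemLp.of_le hF hHi.1 (Eventually.of_forall fun x => ?_)
      simp only [hH]
      rw [norm_mul, RCLike.norm_conj, ex_norm, mul_one]
    have hG2 : MemLp G 2 (mm N) := hH2.condExp (by norm_num)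
    have hGm : AM (mm N) (AL lev (l + 1)) G := am_ce
    set w : T N → ℂ := fun x => (AddCircle.toCircle (af a f x) : ℂ) with hw
    have hwm : AM (mm N) (AL lev (l + 1)) w := am_af hti.t ha
    have hwn : ∀ x, ‖w x‖ = 1 := fun x => Circle.norm_coe _
    have hww : ∀ x, w x * conj (w x) = 1 := fun x => by
      rw [Complex.mul_conj, Complex.normSq_eq_norm_sq, hwn]; simp
    have hHS : (fun x => H (SS f x)) =ᵐ[mm N] fun x => (c * conj (w x)) * H x := by
      filter_upwards [hc] with x hx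
      simp only [hH]
      rw [hx, ex_SS, map_mul]
      simp only [hw]
      ring
    have hHSi : Integrable (fun x => H (SS f x)) (mm N) :=
      hmp.integrable_comp_of_integrable hHi
    have hGS : ∀ᵐ x ∂(mm N), G (SS f x) = c * conj (w x) * G x := by
      have h1 := hC (T N) (mm N) (SS f) (SS f') (AL lev (l + 1)) H hsys hIA hHi
      have h2 : (mm N)[fun x => H (SS f x)|AL lev (l + 1)] =ᵐ[mm N]
          (mm N)[fun x => (c * conj (w x)) * H x|AL lev (l + 1)] := condExp_congr_ae hHS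
      have h3 := pullC (𝒜 := AL lev (l + 1)) (g := fun x => c * conj (w x)) (h := H)
        (am_mul (am_const c) (am_conj hwm)) (hHSi.congr hHS) hHi
      filter_upwards [h1, h2, h3] with x e1 e2 e3
      exact e1.symm.trans (e2.trans e3)
    -- the modulus is constant
    obtain ⟨k, b, -, hb⟩ := ih (fun x => ((‖G x‖ : ℝ) : ℂ)) 1 hG2.norm.ofReal
      (am_cont (φ := fun z => ((‖z‖ : ℝ) : ℂ)) (by fun_prop) hGm) (by
        filter_upwards [hGS] with x hx
        rw [hx, norm_mul, norm_mul, RCLike.norm_conj, hwn, hc1, one_mul, one_mul, one_mul])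
    have hbn : ∀ᵐ x ∂(mm N), ‖G x‖ = ‖b‖ := by
      filter_upwards [hb] with x hx
      have h1 : ‖(((‖G x‖ : ℝ)) : ℂ)‖ = ‖b * ex k x‖ := by rw [hx]
      rw [norm_mul, ex_norm, mul_one, Complex.norm_real, norm_norm] at h1
      exact h1
    by_cases hb0 : b = 0
    · filter_upwards [hbn] with x hx
      rw [hb0, norm_zero] at hx
      exact norm_eq_zero.1 hx
    exfalso
    have hb1 : (0 : ℝ) < ‖b‖ := norm_pos_iff.2 hb0
    have hbC : ((‖b‖ : ℝ) : ℂ) ≠ 0 := by exact_mod_cast hb1.ne'
    obtain ⟨g, hgu, -, hgm, hgG⟩ := exists_uf (μ := mm N) (f := fun x => ((‖b‖ : ℝ) : ℂ)⁻¹ * G x)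
      hlm (am_mul (am_const _) hGm) (by
        filter_upwards [hbn] with x hx
        rw [norm_mul, hx, norm_inv, Complex.norm_real, norm_norm, inv_mul_cancel₀ hb1.ne'])
    refine hnu l a ha0 ha g hgu (am_of hgm) ?_
    refine am_congr (am_const c) ?_
    filter_upwards [hgG, ae_comp hmp hgG, hGS, hbn] with x h1 h2 h3 h4
    simp only [Function.iterate_one]
    rw [← h1, ← h2, h3, ex_SS]
    have h5 : G x * conj (G x) = ((‖b‖ : ℝ) : ℂ) ^ 2 := by
      rw [Complex.mul_conj, Complex.normSq_eq_norm_sq, h4]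
      push_cast
      rfl
    have h6 := ex_mul_conj a x
    have h7 := hww x
    have h8 : (AddCircle.toCircle (af a f x) : ℂ) = w x := rfl
    rw [h8]
    simp only [map_mul, map_inv₀, Complex.conj_ofReal]
    field_simp
    linear_combination (-c * (w x * conj (w x)) * (G x * conj (G x))) * h6 -
      c * (G x * conj (G x)) * h7 - c * h5
  -- conclusion
  set F' : T N → ℂ := (mm N)[F|AL lev (l + 1)] with hF'
  have hF'i : Integrable F' (mm N) := integrable_condExp
  have hF'm : AM (mm N) (AL lev (l + 1)) F' := am_ce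
  have hdiff : (fun x => F x - F' x) =ᵐ[mm N] 0 := by
    refine hD (T N) (mm N) (AL lev (l + 1)) (CH lev (l + 1)) _ hlm
      ((hA N lev).2.2.2.2.2.1 (l + 1)) (hFi.sub hF'i) (am_sub hm' (am_jo_left hF'm)) ?_
    rintro φ ⟨a, ha, rfl⟩
    have h1 : (fun x => (F x - F' x) * conj (ex a x)) =
        (fun x => F x * conj (ex a x)) - fun x => F' x * conj (ex a x) := by
      funext x
      simp only [Pi.sub_apply]
      ring
    rw [h1]
    have h2 := condExp_sub (int_mul_ex hFi a) (int_mul_ex hF'i a) (AL lev (l + 1))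
    refine h2.trans ?_
    by_cases ha0 : a = 0
    · subst ha0
      have h3 : (fun x => F x * conj (ex (0 : Fin N → ℤ) x)) = F := by
        funext x
        rw [ex_zero, map_one, mul_one]
      have h4 : (fun x => F' x * conj (ex (0 : Fin N → ℤ) x)) = F' := by
        funext x
        rw [ex_zero, map_one, mul_one]
      rw [h3, h4]
      have h5 : (mm N)[F'|AL lev (l + 1)] = F' := ce_self hlm F
      rw [h5]
      filter_upwards with x
      simp only [Pi.sub_apply]
      exact sub_self _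
    · have h3 := key a ha0 ha
      have hna : la lev (l + 1) (-a) := fun i hi => ha i fun h => hi (by simp [h])
      have h4 := hZ N lev (l + 1) (-a) (neg_ne_zero.2 ha0) hna F' hF'i hF'm
      have h5 : (fun x => ex (-a) x * F' x) = fun x => F' x * conj (ex a x) := by
        funext x
        rw [ex_neg, mul_comm]
      rw [h5] at h4
      filter_upwards [h3, h4] with x e3 e4
      simp only [Pi.sub_apply]
      rw [e3, e4]
      simp
  have hFF : F =ᵐ[mm N] F' := by
    filter_upwards [hdiff] with x hx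
    exact sub_eq_zero.1 hx
  exact ih F c hF (am_congr hF'm hFF.symm) hc

theorem pl_all (hI : ST_IAL) (hA : ST_ALS) (hZ : ST_CHZ) (hC : ST_CEC) (hD : ST_DNS)
    (hti : TI lev f f') (hsys : Sys (mm N) (SS f) (SS f')) (hr : MR lev f) (hnu : NU lev f 1) :
    ∀ l, PL lev f l
  | 0 => pl_zero hA
  | 1 => pl_one hA hZ hD hti.t hsys.mp hr
  | l + 2 => pl_succ hI hA hZ hC hD hti hsys hnu l
      (pl_all hI hA hZ hC hD hti hsys hr hnu (l + 1))

theorem st_EIG (hM : ST_MPS) (hI : ST_IAL) (hA : ST_ALS) (hZ : ST_CHZ) (hC : ST_CEC)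
    (hD : ST_DNS) : ST_EIG := by
  intro N lev f f' hti hr hnu
  have hsys : Sys (mm N) (SS f) (SS f') := by
    have := hM N lev f f' hti 1
    simpa using this
  have hpl := pl_all hI hA hZ hC hD hti hsys hr hnu
  obtain ⟨L, hL⟩ : ∃ L, ∀ i, lev i < L :=
    ⟨(Finset.univ.sup lev) + 1, fun i => Nat.lt_succ_of_le (Finset.le_sup (Finset.mem_univ i))⟩
  have hE : ∀ (F : T N → ℂ) (c : ℂ), MemLp F 2 (mm N) →
      (∀ᵐ x ∂(mm N), F ((SS f)^[1] x) = c * F x) →
      ∃ (k : Fin N → ℤ) (b : ℂ), la lev 0 k ∧ F =ᵐ[mm N] fun x => b * ex k x := by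
    intro F c hF hc
    refine hpl L F c hF ?_ (by simpa using hc)
    unfold AM
    rw [(hA N lev).2.2.2.2.1 L hL]
    exact hF.1
  refine ⟨⟨by simpa using hsys.mp, ⟨fun s hs hfs => ?_⟩⟩, hE⟩
  obtain ⟨k, b, -, hb⟩ := hE (s.indicator fun _ => (1 : ℂ)) 1
    (MemLp.indicator hs (memLp_const 1)) (Eventually.of_forall fun x => by
      rw [one_mul]
      by_cases hx : x ∈ s
      · have : (SS f)^[1] x ∈ s := by
          have h1 : x ∈ (SS f)^[1] ⁻¹' s := by rw [hfs]; exact hx
          exact h1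
        rw [Set.indicator_of_mem this, Set.indicator_of_mem hx]
      · have : (SS f)^[1] x ∉ s := by
          intro h1
          have h2 : x ∈ (SS f)^[1] ⁻¹' s := h1
          rw [hfs] at h2
          exact hx h2
        rw [Set.indicator_of_notMem this, Set.indicator_of_notMem hx])
  rw [eventuallyConst_set']
  by_cases hb0 : b = 0
  · left
    refine eventuallyEq_empty.2 ?_
    filter_upwards [hb] with x hx hxs
    rw [Set.indicator_of_mem hxs, hb0, zero_mul] at hx
    exact one_ne_zero hx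
  · right
    refine eventuallyEq_univ.2 ?_
    filter_upwards [hb] with x hx
    by_contra hxs
    rw [Set.indicator_of_notMem hxs] at hx
    have h5 : ex k x ≠ 0 := by
      intro h
      have := ex_norm k x
      rw [h] at this
      simp at this
    exact mul_ne_zero hb0 h5 hx.symm

end Pool.Agent.Helper46.TWR
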