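import Pool.Agent.Helper46.TWR.Ex

/-!
Row NEC of the sheet TW (MP_7a8f48_an).
-/

open MeasureTheory Filter Topology Finset
open scoped ComplexConjugate Real

namespace Pool.Agent.Helper46.TWR

open Pool.Agent.Helper16.AZ (T mm)
open Pool.Agent.Helper98.TW

/-- the argument as a point of the circle -/
noncomputable def argU (z : ℂ) : U := ((Complex.arg z / (2 * π) : ℝ) : U)

theorem argU_meas : Measurable argU := by
  unfold argU
  exact (AddCircle.measurable_mk').comp (Complex.measurable_arg.div_const _)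

theorem argU_circ {z : ℂ} (hz : ‖z‖ = 1) : (AddCircle.toCircle (argU z) : ℂ) = z := by
  unfold argU
  rw [AddCircle.toCircle_apply_mk, Circle.coe_exp]
  have h : 2 * π / 1 * (Complex.arg z / (2 * π)) = Complex.arg z := by
    field_simp
  rw [h]
  have := Complex.norm_mul_exp_arg_mul_I z
  rw [hz] at this
  simpa using this

theorem st_NEC (hI : ST_INV) (hM : ST_MPS) : ST_NEC := by
  intro N lev f ht hne l a ha hla g hg hgA hinc
  obtain ⟨f', hti⟩ := hI N lev f ht
  have hmp : MeasurePreserving (SS f) (mm N) (mm N) := by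
    have := (hM N lev f f' hti 1).mp
    simpa using this
  obtain ⟨G, hG, hgG⟩ := am_AL.1 hgA
  obtain ⟨B, hB, hBB⟩ := am_AL.1 hinc
  have htr := tr_meas (N := N) (lev := lev)
  refine hne l a ha hla (fun x => -argU (G (tr lev (l + 1) x))) (fun x => argU (B (tr lev l x)))
    ((argU_meas.comp (hG.comp (htr (l + 1)))).neg) (argU_meas.comp (hB.comp (htr l)))
    (fun x => by simp only [tr_tr]) (fun x => by simp only [tr_tr]) ?_
  filter_upwards [hgG, hmp.quasiMeasurePreserving.ae hgG, hBB, hg.2,
    hmp.quasiMeasurePreserving.ae hg.2] with x h1 h2 h3 h4 h5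
  apply AddCircle.injective_toCircle one_ne_zero
  apply Subtype.ext
  have h6 : ‖B (tr lev l x)‖ = 1 := by
    rw [← h3]
    simp only [Function.iterate_one, norm_mul, RCLike.norm_conj, ex_norm, h4, h5, mul_one]
  have h7 : ‖G (tr lev (l + 1) x)‖ = 1 := by rw [← h1]; exact h4
  have h8 : ‖G (tr lev (l + 1) (SS f x))‖ = 1 := by rw [← h2]; exact h5
  have e1 : ((AddCircle.toCircle ((∑ i, a i • f i x) + -argU (G (tr lev (l + 1) x))) : Circle) : ℂ) =
      (AddCircle.toCircle (af a f x) : ℂ) * (g x)⁻¹ := by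
    rw [AddCircle.toCircle_add, AddCircle.toCircle_neg, Circle.coe_mul, Circle.coe_inv,
      argU_circ h7, ← h1]
    rfl
  have e2 : ((AddCircle.toCircle (argU (B (tr lev l x)) + -argU (G (tr lev (l + 1) (SS f x)))) :
      Circle) : ℂ) = B (tr lev l x) * (g (SS f x))⁻¹ := by
    rw [AddCircle.toCircle_add, AddCircle.toCircle_neg, Circle.coe_mul, Circle.coe_inv,
      argU_circ h6, argU_circ h8, ← h2]
  refine e1.trans (Eq.trans ?_ e2.symm)
  rw [← h3]
  simp only [Function.iterate_one, map_mul]
  rw [ex_SS]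
  have hgx : g x ≠ 0 := by intro h; rw [h] at h4; simp at h4
  have hgs : g (SS f x) ≠ 0 := by intro h; rw [h] at h5; simp at h5
  have h9 : conj (g x) = (g x)⁻¹ := by
    rw [Complex.inv_def, Complex.normSq_eq_norm_sq, h4]; simp
  rw [h9]
  have h10 := ex_mul_conj a x
  calc (AddCircle.toCircle (af a f x) : ℂ) * (g x)⁻¹
      = (ex a x * conj (ex a x)) * (AddCircle.toCircle (af a f x) : ℂ) * (g x)⁻¹ := by
        rw [h10, one_mul]
    _ = _ := by field_simp

end Pool.Agent.Helper46.TWR
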