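import Pool.Agent.Helper46.TWR.Ex

/-!
Row ERP of the sheet TW (MP_7a8f48_an).
-/

open MeasureTheory Filter Topology Finset
open scoped ComplexConjugate Real

namespace Pool.Agent.Helper46.TWR

open Pool.Agent.Helper16.AZ (T mm)
open Pool.Agent.Helper98.TW

variable {N : ℕ} {lev : Fin N → ℕ} {f : Fin N → T N → U}

/-- on level `0` the cocycle is constant -/
theorem af_zero_level (h : Tow lev f) {a : Fin N → ℤ} (ha : la lev 0 a) (x : T N) :
    af a f x = af a f 0 := by
  have h1 := af_dep h ha x
  have h2 : tr lev 0 x = 0 := by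
    funext i
    simp [tr]
  rw [← h1, h2]

theorem af_sub (a b : Fin N → ℤ) (x : T N) : af (a - b) f x = af a f x - af b f x := by
  unfold af
  rw [← Finset.sum_sub_distrib]
  refine Finset.sum_congr rfl fun i _ => ?_
  rw [Pi.sub_apply, sub_smul]

theorem af_smul (m : ℕ) (a : Fin N → ℤ) (x : T N) : af (m • a) f x = m • af a f x := by
  unfold af
  rw [Finset.smul_sum]
  refine Finset.sum_congr rfl fun i _ => ?_
  rw [Pi.smul_apply, smul_assoc]

theorem la_sub {l : ℕ} {a b : Fin N → ℤ} (ha : la lev l a) (hb : la lev l b) :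
    la lev l (a - b) := by
  intro i hi
  by_cases h : a i = 0
  · refine hb i fun h' => hi ?_
    rw [Pi.sub_apply, h, h', sub_zero]
  · exact ha i h

theorem la_smul {l : ℕ} (m : ℕ) {a : Fin N → ℤ} (ha : la lev l a) : la lev l (m • a) := by
  intro i hi
  refine ha i fun h => hi ?_
  rw [Pi.smul_apply, h, smul_zero]

theorem la_zero {l : ℕ} : la lev l (0 : Fin N → ℤ) := fun _ h => absurd rfl h

/-- the eigenvalue of the character `a` of level `0` -/
noncomputable def ev (f : Fin N → T N → U) (a : Fin N → ℤ) : ℂ := (AddCircle.toCircle (af a f 0) : ℂ)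

theorem ex_ev (h : Tow lev f) {a : Fin N → ℤ} (ha : la lev 0 a) (x : T N) :
    ex a (SS f x) = ev f a * ex a x := by
  rw [ex_SS, af_zero_level h ha, mul_comm]
  rfl

theorem ev_inj (hr : MR lev f) {a b : Fin N → ℤ} (ha : la lev 0 a) (hb : la lev 0 b)
    (h : ev f a = ev f b) : a = b := by
  by_contra hab
  have h1 := AddCircle.injective_toCircle (one_ne_zero (α := ℝ)) (Subtype.ext h)
  refine hr (a - b) (sub_ne_zero.2 hab) (la_sub ha hb) ?_
  have h2 := af_sub (f := f) a b 0
  rw [h1, sub_self] at h2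
  exact h2

theorem ev_pow (m : ℕ) (a : Fin N → ℤ) : ev f a ^ m = ev f (m • a) := by
  unfold ev
  rw [af_smul, AddCircle.toCircle_nsmul, Circle.coe_pow]

theorem ev_pow_inj (hr : MR lev f) {m : ℕ} (hm : 1 ≤ m) {a b : Fin N → ℤ} (ha : la lev 0 a)
    (hb : la lev 0 b) (h : ev f a ^ m = ev f b ^ m) : a = b := by
  rw [ev_pow, ev_pow] at h
  have h1 := ev_inj hr (la_smul m ha) (la_smul m hb) h
  funext i
  have h2 := congrFun h1 i
  simp only [Pi.smul_apply, nsmul_eq_mul] at h2
  exact mul_left_cancel₀ (by exact_mod_cast (by omega : m ≠ 0)) h2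

theorem ex_memLp (a : Fin N → ℤ) : MemLp (ex a) 2 (mm N) :=
  MemLp.of_bound (ex_meas a).aestronglyMeasurable 1 (Eventually.of_forall fun x => (ex_norm a x).le)

theorem exists_of_ae {P : T N → Prop} (h : ∀ᵐ x ∂(mm N), P x) : ∃ x, P x := h.exists

theorem st_ERP (hM : ST_MPS) : ST_ERP := by
  intro N lev f f' hti hr heg m hm
  have hmp : MeasurePreserving (SS f) (mm N) (mm N) := by
    have := (hM N lev f f' hti 1).mp
    simpa using this
  have hsys := hM N lev f f' hti m
  have hE : ∀ (F : T N → ℂ) (c : ℂ), MemLp F 2 (mm N) →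
      (∀ᵐ x ∂(mm N), F ((SS f)^[m] x) = c * F x) →
      ∃ (k : Fin N → ℤ) (b : ℂ), la lev 0 k ∧ F =ᵐ[mm N] fun x => b * ex k x := by
    intro F c hF hc
    by_cases hc0 : c = 0
    · refine ⟨0, 0, la_zero, ?_⟩
      have h1 : ∀ᵐ x ∂(mm N), F ((SS f)^[m] ((SS f')^[m] x)) = c * F ((SS f')^[m] x) :=
        ae_comp hsys.mp' hc
      filter_upwards [h1, hsys.r] with x hx hx'
      rw [hx'] at hx
      rw [hx, hc0, zero_mul, zero_mul]
    obtain ⟨ζ, hζ⟩ := IsAlgClosed.exists_pow_nat_eq c (by omega : 0 < m)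
    have hζ0 : ζ ≠ 0 := by
      rintro rfl
      rw [zero_pow (by omega)] at hζ
      exact hc0 hζ.symm
    set ω : ℂ := Complex.exp (2 * π * Complex.I / m) with hω
    have hprim : IsPrimitiveRoot ω m := Complex.isPrimitiveRoot_exp m (by omega)
    have hω0 : ω ≠ 0 := Complex.exp_ne_zero _
    let μ : ℕ → ℂ := fun j => ζ * ω ^ j
    have hμ0 : ∀ j, μ j ≠ 0 := fun j => mul_ne_zero hζ0 (pow_ne_zero _ hω0)
    have hμm : ∀ j, μ j ^ m = c := by
      intro j
      simp only [μ]
      rw [mul_pow, hζ, ← pow_mul, mul_comm j m, pow_mul, hprim.pow_eq_one, one_pow, mul_one]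
    let G : ℕ → T N → ℂ := fun j x => ∑ i ∈ range m, (μ j ^ i)⁻¹ * F ((SS f)^[i] x)
    have hG2 : ∀ j, MemLp (G j) 2 (mm N) := by
      intro j
      refine memLp_finsetSum _ fun i _ => ?_
      exact (hF.comp_measurePreserving (hmp.iterate i)).const_mul _
    have hGS : ∀ j, ∀ᵐ x ∂(mm N), G j ((SS f)^[1] x) = μ j * G j x := by
      intro j
      filter_upwards [hc] with x hx
      simp only [Function.iterate_one, G]
      have h1 : ∑ i ∈ range m, (μ j ^ i)⁻¹ * F ((SS f)^[i] (SS f x)) =
          μ j * ∑ i ∈ range m, (μ j ^ (i + 1))⁻¹ * F ((SS f)^[i + 1] x) := by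
        rw [Finset.mul_sum]
        refine Finset.sum_congr rfl fun i _ => ?_
        rw [Function.iterate_succ_apply, pow_succ, mul_inv]
        have h0 := hμ0 j
        rw [← mul_assoc, mul_comm (μ j), mul_assoc ((μ j ^ i)⁻¹), inv_mul_cancel₀ h0, mul_one]
      rw [h1]
      have h2 := Finset.sum_range_succ' (fun i => (μ j ^ i)⁻¹ * F ((SS f)^[i] x)) m
      have h3 := Finset.sum_range_succ (fun i => (μ j ^ i)⁻¹ * F ((SS f)^[i] x)) m
      have h4 : (μ j ^ m)⁻¹ * F ((SS f)^[m] x) = F x := by
        rw [hx, hμm, ← mul_assoc, inv_mul_cancel₀ hc0, one_mul]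
      rw [h4] at h3
      simp only [pow_zero, inv_one, one_mul, Function.iterate_zero, id_eq] at h2
      have h5 : ∑ i ∈ range m, (μ j ^ (i + 1))⁻¹ * F ((SS f)^[i + 1] x) =
          ∑ i ∈ range m, (μ j ^ i)⁻¹ * F ((SS f)^[i] x) := by
        have := h2.symm.trans h3
        exact add_right_cancel this
      rw [h5]
    choose k b hk hGb using fun j => heg.2 (G j) (μ j) (hG2 j) (hGS j)
    have hsum : ∀ x, ∑ j ∈ range m, G j x = m * F x := by
      intro x
      simp only [G]
      rw [Finset.sum_comm]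
      have h1 : ∀ i ∈ range m, ∑ j ∈ range m, (μ j ^ i)⁻¹ * F ((SS f)^[i] x) =
          if i = 0 then m * F x else 0 := by
        intro i hi
        rw [← Finset.sum_mul]
        by_cases hi0 : i = 0
        · subst hi0
          simp
        · rw [if_neg hi0]
          have h2 : ∑ j ∈ range m, (μ j ^ i)⁻¹ = (ζ ^ i)⁻¹ * ∑ j ∈ range m, ((ω ^ i)⁻¹) ^ j := by
            rw [Finset.mul_sum]
            refine Finset.sum_congr rfl fun j _ => ?_
            simp only [μ]
            rw [mul_pow, mul_inv, ← pow_mul, mul_comm j i, pow_mul, inv_pow]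
          have h3 : (ω ^ i)⁻¹ ≠ 1 := by
            intro h
            have h4 : ω ^ i = 1 := by rw [← inv_inv (ω ^ i), h, inv_one]
            have h5 := (hprim.pow_eq_one_iff_dvd i).1 h4
            have h6 := Nat.le_of_dvd (Nat.pos_of_ne_zero hi0) h5
            have h7 := Finset.mem_range.1 hi
            omega
          have h4 : ∑ j ∈ range m, ((ω ^ i)⁻¹) ^ j = 0 := by
            have h5 := geom_sum_mul ((ω ^ i)⁻¹) m
            have h6 : ((ω ^ i)⁻¹) ^ m = 1 := by
              rw [inv_pow, ← pow_mul, mul_comm i m, pow_mul, hprim.pow_eq_one, one_pow, inv_one]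
            rw [h6, sub_self] at h5
            exact (mul_eq_zero.1 h5).resolve_right (sub_ne_zero.2 h3)
          rw [h2, h4, mul_zero, zero_mul]
      rw [Finset.sum_congr rfl h1]
      rw [Finset.sum_ite_eq' (range m) 0 (fun _ => (m : ℂ) * F x)]
      rw [if_pos (Finset.mem_range.2 (by omega))]
    have hm0 : (m : ℂ) ≠ 0 := by exact_mod_cast (by omega : m ≠ 0)
    have hev : ∀ j, b j ≠ 0 → ev f (k j) ^ m = c := by
      intro j hbj
      obtain ⟨x, h1, h2, h3⟩ := ((hGS j).and ((hGb j).and
        (ae_comp (P := fun x => G j x = b j * ex (k j) x) hmp (hGb j)))).exists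
      have h1' : G j (SS f x) = μ j * G j x := h1
      have h2' : G j x = b j * ex (k j) x := h2
      have h3' : G j (SS f x) = b j * ex (k j) (SS f x) := h3
      have h4 : b j * ex (k j) (SS f x) = μ j * (b j * ex (k j) x) := by
        rw [← h3', ← h2']
        exact h1'
      rw [ex_ev hti.t (hk j)] at h4
      have h5 : ex (k j) x ≠ 0 := by
        intro h
        have := ex_norm (k j) x
        rw [h] at this
        simp at this
      have h6 : ev f (k j) = μ j := by
        have h7 : (b j * ex (k j) x) * ev f (k j) = (b j * ex (k j) x) * μ j := by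
          linear_combination h4
        exact mul_left_cancel₀ (mul_ne_zero hbj h5) h7
      rw [h6, hμm]
    have hall : ∀ᵐ x ∂(mm N), ∀ j, G j x = b j * ex (k j) x := ae_all_iff.2 hGb
    by_cases hex : ∃ j ∈ range m, b j ≠ 0
    · obtain ⟨j0, -, hj0⟩ := hex
      refine ⟨k j0, (∑ j ∈ range m, b j) / m, hk j0, ?_⟩
      filter_upwards [hall] with x hx
      have h1 := hsum x
      have h2 : ∑ j ∈ range m, G j x = (∑ j ∈ range m, b j) * ex (k j0) x := by
        rw [Finset.sum_mul]
        refine Finset.sum_congr rfl fun j _ => ?_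
        rw [hx j]
        by_cases hbj : b j = 0
        · rw [hbj, zero_mul, zero_mul]
        · have : k j = k j0 := ev_pow_inj hr hm (hk j) (hk j0) ((hev j hbj).trans (hev j0 hj0).symm)
          rw [this]
      rw [h2] at h1
      field_simp
      linear_combination -h1
    · push Not at hex
      refine ⟨0, 0, la_zero, ?_⟩
      filter_upwards [hall] with x hx
      have h1 := hsum x
      have h2 : ∑ j ∈ range m, G j x = 0 := by
        refine Finset.sum_eq_zero fun j hj => ?_
        rw [hx j, hex j hj, zero_mul]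
      rw [h2] at h1
      rw [zero_mul]
      exact (mul_eq_zero.1 h1.symm).resolve_left hm0
  refine ⟨⟨hsys.mp, ⟨fun s hs hfs => ?_⟩⟩, hE⟩
  obtain ⟨k, b, -, hb⟩ := hE (s.indicator fun _ => (1 : ℂ)) 1
    (MemLp.indicator hs (memLp_const 1)) (Eventually.of_forall fun x => by
      rw [one_mul]
      by_cases hx : x ∈ s
      · have : (SS f)^[m] x ∈ s := by
          have h1 : x ∈ (SS f)^[m] ⁻¹' s := by rw [hfs]; exact hx
          exact h1
        rw [Set.indicator_of_mem this, Set.indicator_of_mem hx]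
      · have : (SS f)^[m] x ∉ s := by
          intro h1
          have h2 : x ∈ (SS f)^[m] ⁻¹' s := h1
          rw [hfs] at h2
          exact hx h2
        rw [Set.indicator_of_notMem this, Set.indicator_of_notMem hx])
  rw [eventuallyConst_set']
  by_cases hb0 : b = 0
  · left
    refine eventuallyEq_empty.2 ?_
    filter_upwards [hb] with x hx hxs
    rw [Set.indicator_of_mem hxs, hb0, zero_mul] at hx
    exact one_ne_zero hx
  · right
    refine eventuallyEq_univ.2 ?_
    filter_upwards [hb] with x hx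
    by_contra hxs
    rw [Set.indicator_of_notMem hxs] at hx
    have h5 : ex k x ≠ 0 := by
      intro h
      have := ex_norm k x
      rw [h] at this
      simp at this
    exact mul_ne_zero hb0 h5 hx.symm

end Pool.Agent.Helper46.TWR
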